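import Pool.Agent.Helper93.CX.Lab
import Pool.Agent.Helper69.CX.Check

/-!
# Project CX (MP_f22a19_gt): the affine labels of the double, kernel test

* `foldN`, `sideN`: the folding map and the side of the vertices `0, ..., n - 1` of the double, the
  vertices of one copy are `0, ..., nU - 1`, the boundary vertices are `0, ..., nB - 1`, and the
  mirror image of the interior vertex `u` is `u - nB + nU`.
* `RT`: search tree for the relations.
* FORMAT E (fast): `labI` is the label table packed in one natural number, entries for `u < u'`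
  only, with a second packed table of the inverse letters; `chkInv`, `chkLabE` are the Boolean
  tests, `labels_of_realPointE` is the soundness theorem.
* FORMAT W (simple): any table `lab` with `lab u u = 0`, for example `labP` (one packed table with
  entries for all ordered pairs); `chkLabW` is the test, `labels_of_realPoint` the soundness.
* `chkLabE_append`, `chkLabW_append`: cutting the list of facets into chunks.
-/

set_option autoImplicit false

namespace Pool.CX

open Pool.Agent.Helper66.AF Helper69.CX

/-- the folding map of the double -/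
def foldN (nU nB w : ℕ) : ℕ := bif Nat.blt w nU then w else Nat.add (Nat.sub w nU) nB

/-- the vertex is an interior vertex of the second copy -/
def sideN (nU w : ℕ) : Bool := Nat.ble nU w

/-- the entry `i` of a table packed in one natural number, `W` bits for each entry -/
def ent (W tab i : ℕ) : ℕ := Nat.mod (Nat.shiftRight tab (Nat.mul W i)) (Nat.pow 2 W)

/-- Label table: `tab` contains the letters of the edges `u u'` with `u < u'` (entry `u * B + u'`),
`itab` the inverses of the letters. The label is `0` on the diagonal. -/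
def labI (W B tab itab u u' : ℕ) : ℕ :=
  bif Nat.blt u u' then ent W tab (Nat.add (Nat.mul u B) u')
  else bif Nat.blt u' u then ent W itab (ent W tab (Nat.add (Nat.mul u' B) u))
  else 0

/-- certificate for the edge `u u'`: the letter is less than `K` -/
def edI (K W B tab u u' : ℕ) : Bool :=
  bif Nat.blt u u' then Nat.blt (ent W tab (Nat.add (Nat.mul u B) u')) K
  else bif Nat.blt u' u then Nat.blt (ent W tab (Nat.add (Nat.mul u' B) u)) K
  else true

/-- the test of the inverse table for the letters less than `K` -/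
def chkInv (rel : ℕ → ℕ → ℕ → Bool) (W itab : ℕ) : ℕ → Bool
  | 0 => true
  | K + 1 => chkInv rel W itab K && rel K (ent W itab K) 0

/-- search tree for the relations `A i * A j = A k`, sorted by `(i, j)` -/
inductive RT : Type
  | nil : RT
  | node (l : RT) (i j k : ℕ) (r : RT) : RT

/-- the list of the relations -/
def RT.toList : RT → List (ℕ × ℕ × ℕ)
  | RT.nil => []
  | RT.node l i j k r => l.toList ++ (i, j, k) :: r.toList

/-- search for a relation -/
noncomputable def RT.has (t : RT) : ℕ → ℕ → ℕ → Bool :=
  RT.rec (motive := fun _ => ℕ → ℕ → ℕ → Bool) (fun _ _ _ => false)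
    (fun _ i j k _ hl hr x y z =>
      bif Nat.blt x i then hl x y z
      else bif Nat.blt i x then hr x y z
      else bif Nat.blt y j then hl x y z
      else bif Nat.blt j y then hr x y z
      else Nat.beq z k) t

theorem RT.has_node (l : RT) (i j k : ℕ) (r : RT) (x y z : ℕ) :
    (RT.node l i j k r).has x y z =
      bif Nat.blt x i then l.has x y z
      else bif Nat.blt i x then r.has x y z
      else bif Nat.blt y j then l.has x y z
      else bif Nat.blt j y then r.has x y z
      else Nat.beq z k := rfl

theorem blt_true {x y : ℕ} (h : x < y) : Nat.blt x y = true := by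
  rw [Nat.blt_eq]
  exact h

theorem lt_of_blt_true {x y : ℕ} (h : Nat.blt x y = true) : x < y := by
  rwa [Nat.blt_eq] at h

theorem blt_false {x y : ℕ} (h : ¬ x < y) : Nat.blt x y = false := by
  by_contra h1
  exact h (lt_of_blt_true (by simpa using h1))

theorem ble_true {x y : ℕ} (h : x ≤ y) : Nat.ble x y = true := Nat.ble_eq ▸ h

theorem labI_self (W B tab itab u : ℕ) : labI W B tab itab u u = 0 := by
  unfold labI
  rw [blt_false (lt_irrefl u), cond_false, cond_false]

theorem RT.has_sound (t : RT) {x y z : ℕ} (h : t.has x y z = true) : (x, y, z) ∈ t.toList := by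
  induction t with
  | nil => exact Bool.noConfusion h
  | node l i j k r ihl ihr =>
    rw [RT.has_node] at h
    unfold RT.toList
    rw [List.mem_append, List.mem_cons]
    by_cases h1 : x < i
    · rw [blt_true h1, cond_true] at h
      exact Or.inl (ihl h)
    · rw [blt_false h1, cond_false] at h
      by_cases h2 : i < x
      · rw [blt_true h2, cond_true] at h
        exact Or.inr (Or.inr (ihr h))
      · rw [blt_false h2, cond_false] at h
        by_cases h3 : y < j
        · rw [blt_true h3, cond_true] at h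
          exact Or.inl (ihl h)
        · rw [blt_false h3, cond_false] at h
          by_cases h4 : j < y
          · rw [blt_true h4, cond_true] at h
            exact Or.inr (Or.inr (ihr h))
          · rw [blt_false h4, cond_false] at h
            have e1 : z = k := Nat.eq_of_beq_eq_true h
            have e2 : x = i := by omega
            have e3 : y = j := by omega
            exact Or.inr (Or.inl (by rw [e1, e2, e3]))

/-- the test of the boundary letters -/
def bdHas (bds : List ℕ) (i : ℕ) : Bool := bds.any (fun j => Nat.beq i j)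

theorem bdHas_sound {bds : List ℕ} {i : ℕ} (h : bdHas bds i = true) : i ∈ bds := by
  unfold bdHas at h
  obtain ⟨j, hj, h⟩ := List.any_eq_true.1 h
  rwa [Nat.eq_of_beq_eq_true h]

theorem chkInv_sound {rel : ℕ → ℕ → ℕ → Bool} {W itab K : ℕ} (h : chkInv rel W itab K = true)
    {i : ℕ} (hi : i < K) : rel i (ent W itab i) 0 = true := by
  induction K with
  | zero => exact absurd hi (Nat.not_lt_zero _)
  | succ K ih =>
    unfold chkInv at h
    rw [Bool.and_eq_true] at h
    rcases Nat.lt_succ_iff_lt_or_eq.1 hi with h1 | h1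
    · exact ih h.1 h1
    · rw [h1]
      exact h.2

theorem edI_sound {A : ℕ → Aff3} {rel : ℕ → ℕ → ℕ → Bool} {W B tab itab K : ℕ} (h0 : A 0 = 1)
    (hrel : ∀ i j l, rel i j l = true → A i * A j = A l) (h : chkInv rel W itab K = true)
    (u v : ℕ) (huv : edI K W B tab u v = true) :
    A (labI W B tab itab u v) * A (labI W B tab itab v u) = 1 := by
  have key : ∀ i, i < K → A i * A (ent W itab i) = 1 := fun i hi => by
    rw [hrel _ _ _ (chkInv_sound h hi), h0]
  unfold edI at huv
  unfold labI
  rcases lt_trichotomy u v with h1 | h1 | h1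
  · rw [blt_true h1, cond_true] at huv
    rw [blt_true h1, cond_true, blt_false (not_lt.2 h1.le), cond_false, cond_true]
    exact key _ (lt_of_blt_true huv)
  · subst h1
    rw [blt_false (lt_irrefl u), cond_false, cond_false, h0, mul_one]
  · rw [blt_false (not_lt.2 h1.le), cond_false, blt_true h1, cond_true] at huv
    rw [blt_true h1, cond_true, blt_false (not_lt.2 h1.le), cond_false, cond_true]
    exact mul_eq_one_comm.1 (key _ (lt_of_blt_true huv))

/-- the vertex belongs to the second copy or is a boundary vertex -/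
def bdryN (nU nB w : ℕ) : Bool := Nat.blt w nB || sideN nU w

/-- the test for one facet of the double -/
def facetW (n nU nB : ℕ) (lab : ℕ → ℕ → ℕ) (ed : ℕ → ℕ → Bool) (rel : ℕ → ℕ → ℕ → Bool)
    (bd : ℕ → Bool) (a b c d : ℕ) : Bool :=
  (Nat.blt a n && Nat.blt b n && Nat.blt c n && Nat.blt d n) &&
  (!(sideN nU a || sideN nU b || sideN nU c || sideN nU d) ||
    (bdryN nU nB a && bdryN nU nB b && bdryN nU nB c && bdryN nU nB d)) &&
  facetOK nB lab ed rel bd (foldN nU nB a) (foldN nU nB b) (foldN nU nB c) (foldN nU nB d)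

/-- **The test of the labels** on the list of the facets of the double. -/
def chkLabE (n nU nB : ℕ) (lab : ℕ → ℕ → ℕ) (ed : ℕ → ℕ → Bool) (rel : ℕ → ℕ → ℕ → Bool)
    (bd : ℕ → Bool) (T : List (ST ℕ)) : Bool :=
  T.all fun t => facetW n nU nB lab ed rel bd t.2.1 t.2.2.1 t.2.2.2.1 t.2.2.2.2

theorem mem_verts_orient {V : Type*} (t : ST V) (w : V) :
    w ∈ verts (orient t) ↔ w = t.2.1 ∨ w = t.2.2.1 ∨ w = t.2.2.2.1 ∨ w = t.2.2.2.2 := by
  obtain ⟨s, a, b, c, d⟩ := t
  cases s
  · simp only [orient, verts, Bool.false_eq_true, if_false, List.mem_cons, List.not_mem_nil,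
      or_false]
    tauto
  · simp only [orient, verts, if_true, List.mem_cons, List.not_mem_nil, or_false]

section

variable {A : ℕ → Aff3} {lab : ℕ → ℕ → ℕ} {ed : ℕ → ℕ → Bool} {rel : ℕ → ℕ → ℕ → Bool}
  {bd : ℕ → Bool}

/-- **Soundness of the test.** -/
theorem labels_of_chkE {n nU nB : ℕ} [NeZero n] {T : List (ST ℕ)} {P : ℕ → E3} (h0 : A 0 = 1)
    (hlab : ∀ u, lab u u = 0)
    (hed : ∀ u v, ed u v = true → A (lab u v) * A (lab v u) = 1)
    (hrel : ∀ i j l, rel i j l = true → A i * A j = A l)
    (hbd : ∀ i, bd i = true → ∀ x, A i (sigmaL x) = sigmaL (A i x))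
    (h : chkLabE n nU nB lab ed rel bd T = true) (hP : ∀ u < nB, P u 2 = 0) :
    Labels ((TF n T).map orient) (fun w : Fin n => foldN nU nB w.1) (fun w => sideN nU w.1)
      (fun u u' => A (lab u u')) P := by
  have key : ∀ t ∈ (TF n T).map orient, ∃ a b c d : ℕ, (a < n ∧ b < n ∧ c < n ∧ d < n) ∧
      ((sideN nU a = true ∨ sideN nU b = true ∨ sideN nU c = true ∨ sideN nU d = true) →
        (bdryN nU nB a = true ∧ bdryN nU nB b = true ∧ bdryN nU nB c = true ∧
          bdryN nU nB d = true)) ∧
      facetOK nB lab ed rel bd (foldN nU nB a) (foldN nU nB b) (foldN nU nB c) (foldN nU nB d)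
        = true ∧
      ∀ w ∈ verts t, w.1 = a ∨ w.1 = b ∨ w.1 = c ∨ w.1 = d := by
    intro t ht
    obtain ⟨t1, ht1, rfl⟩ := List.mem_map.1 ht
    obtain ⟨⟨s, a, b, c, d⟩, ht2, rfl⟩ := List.mem_map.1 ht1
    have h1 := List.all_eq_true.1 h _ ht2
    simp only [facetW, Bool.and_eq_true, Bool.or_eq_true, Bool.not_eq_true', Nat.blt_eq] at h1
    obtain ⟨⟨⟨⟨⟨ha, hb⟩, hc⟩, hd⟩, h2⟩, h3⟩ := h1
    refine ⟨a, b, c, d, ⟨ha, hb, hc, hd⟩, ?_, h3, ?_⟩
    · intro h4
      rcases h2 with h2 | h2
      · exfalso
        simp only [Bool.or_eq_false_iff] at h2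
        obtain ⟨⟨⟨e1, e2⟩, e3⟩, e4⟩ := h2
        rcases h4 with h4 | h4 | h4 | h4
        · rw [e1] at h4; exact Bool.noConfusion h4
        · rw [e2] at h4; exact Bool.noConfusion h4
        · rw [e3] at h4; exact Bool.noConfusion h4
        · rw [e4] at h4; exact Bool.noConfusion h4
      · obtain ⟨⟨⟨e1, e2⟩, e3⟩, e4⟩ := h2
        exact ⟨e1, e2, e3, e4⟩
    · intro w hw
      rw [mem_verts_orient] at hw
      simp only [mapST] at hw
      rcases hw with rfl | rfl | rfl | rfl
      · left; rw [Fin.val_ofNat, Nat.mod_eq_of_lt ha]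
      · right; left; rw [Fin.val_ofNat, Nat.mod_eq_of_lt hb]
      · right; right; left; rw [Fin.val_ofNat, Nat.mod_eq_of_lt hc]
      · right; right; right; rw [Fin.val_ofNat, Nat.mod_eq_of_lt hd]
  refine labels_of_facets h0 hlab hed hrel hbd ?_ ?_ hP
  · intro t ht
    obtain ⟨a, b, c, d, -, -, h2, h3⟩ := key t ht
    refine ⟨_, _, _, _, h2, ?_⟩
    intro w hw
    rcases h3 w hw with h | h | h | h <;> rw [h] <;> simp
  · intro t ht hc w hw hs
    obtain ⟨a, b, c, d, -, h1, -, h3⟩ := key t ht
    have h4 : bdryN nU nB a = true ∧ bdryN nU nB b = true ∧ bdryN nU nB c = true ∧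
        bdryN nU nB d = true := by
      apply h1
      obtain ⟨v, hv, hv2⟩ := hc
      rcases h3 v hv with h | h | h | h
      · rw [h] at hv2; exact Or.inl hv2
      · rw [h] at hv2; exact Or.inr (Or.inl hv2)
      · rw [h] at hv2; exact Or.inr (Or.inr (Or.inl hv2))
      · rw [h] at hv2; exact Or.inr (Or.inr (Or.inr hv2))
    have h5 : bdryN nU nB w.1 = true := by
      rcases h3 w hw with h | h | h | h
      · rw [h]; exact h4.1
      · rw [h]; exact h4.2.1
      · rw [h]; exact h4.2.2.1
      · rw [h]; exact h4.2.2.2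
    unfold bdryN at h5
    rw [Bool.or_eq_true] at h5
    have h6 : w.1 < nB ∧ w.1 < nU := by
      rcases h5 with h5 | h5
      · refine ⟨lt_of_blt_true h5, ?_⟩
        by_contra h7
        unfold sideN at hs
        have := ble_true (not_lt.1 h7)
        rw [hs] at this
        exact Bool.noConfusion this
      · rw [hs] at h5
        exact Bool.noConfusion h5
    unfold foldN
    rw [blt_true h6.2, cond_true]
    exact h6.1

/-- **The labels of the double from the tables and a real point.** `t` is the search tree of the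
relations. -/
theorem labels_of_realPointE {k : ℕ} {rels : List (ℕ × ℕ × ℕ)} {bds : List ℕ} {box : ℕ → ABox}
    {s : ℝ} (R : RealPoint k rels bds box s) {t : RT} (ht : ∀ x ∈ t.toList, x ∈ rels)
    {n nU nB K W B tab itab : ℕ} [NeZero n] {T : List (ST ℕ)} {P : ℕ → E3}
    (hI : chkInv t.has W itab K = true)
    (h : chkLabE n nU nB (labI W B tab itab) (edI K W B tab) t.has (bdHas bds) T = true)
    (hP : ∀ u < nB, P u 2 = 0) :
    Labels ((TF n T).map orient) (fun w : Fin n => foldN nU nB w.1) (fun w => sideN nU w.1)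
      (fun u u' => R.A (labI W B tab itab u u')) P := by
  have hrel : ∀ i j l, t.has i j l = true → R.A i * R.A j = R.A l :=
    fun _ _ _ h => R.rel _ (ht _ (RT.has_sound t h))
  exact labels_of_chkE R.zero (labI_self W B tab itab) (edI_sound R.zero hrel hI) hrel
    (fun _ h => R.comm _ (bdHas_sound h)) h hP

end

theorem chkLabE_append {n nU nB : ℕ} {lab : ℕ → ℕ → ℕ} {ed : ℕ → ℕ → Bool}
    {rel : ℕ → ℕ → ℕ → Bool} {bd : ℕ → Bool} {T₁ T₂ : List (ST ℕ)}
    (h₁ : chkLabE n nU nB lab ed rel bd T₁ = true) (h₂ : chkLabE n nU nB lab ed rel bd T₂ = true) :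
    chkLabE n nU nB lab ed rel bd (T₁ ++ T₂) = true := by
  unfold chkLabE at *
  rw [List.all_append, h₁, h₂]
  rfl

/-! ### Format W -/

/-- Label table packed in one natural number: `W` bits for each ordered pair, row length `B`; the
label is `0` on the diagonal. -/
def labP (W B tab u u' : ℕ) : ℕ :=
  bif Nat.beq u u' then 0 else ent W tab (Nat.add (Nat.mul u B) u')

theorem labP_self (W B tab u : ℕ) : labP W B tab u u = 0 := by
  unfold labP
  rw [show Nat.beq u u = true from Nat.beq_refl u]
  rfl

/-- **The test of the labels** on the list of the facets of the double, format W. -/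
def chkLabW (n nU nB : ℕ) (lab : ℕ → ℕ → ℕ) (rel : ℕ → ℕ → ℕ → Bool)
    (bd : ℕ → Bool) (T : List (ST ℕ)) : Bool :=
  chkLabE n nU nB lab (fun u v => rel (lab u v) (lab v u) 0) rel bd T

theorem chkLabW_append {n nU nB : ℕ} {lab : ℕ → ℕ → ℕ}
    {rel : ℕ → ℕ → ℕ → Bool} {bd : ℕ → Bool} {T₁ T₂ : List (ST ℕ)}
    (h₁ : chkLabW n nU nB lab rel bd T₁ = true) (h₂ : chkLabW n nU nB lab rel bd T₂ = true) :
    chkLabW n nU nB lab rel bd (T₁ ++ T₂) = true := chkLabE_append h₁ h₂

/-- **The labels of the double from the tables and a real point**, format W. -/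
theorem labels_of_realPoint {k : ℕ} {rels : List (ℕ × ℕ × ℕ)} {bds : List ℕ} {box : ℕ → ABox}
    {s : ℝ} (R : RealPoint k rels bds box s) {lab : ℕ → ℕ → ℕ} {t : RT}
    (ht : ∀ x ∈ t.toList, x ∈ rels)
    {n nU nB : ℕ} [NeZero n] {T : List (ST ℕ)} {P : ℕ → E3} (hlab : ∀ u, lab u u = 0)
    (h : chkLabW n nU nB lab t.has (bdHas bds) T = true) (hP : ∀ u < nB, P u 2 = 0) :
    Labels ((TF n T).map orient) (fun w : Fin n => foldN nU nB w.1) (fun w => sideN nU w.1)
      (fun u u' => R.A (lab u u')) P := by
  have hrel : ∀ i j l, t.has i j l = true → R.A i * R.A j = R.A l :=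
    fun _ _ _ h => R.rel _ (ht _ (RT.has_sound t h))
  exact labels_of_chkE R.zero hlab (fun u v h => by rw [hrel _ _ _ h, R.zero]) hrel
    (fun _ h => R.comm _ (bdHas_sound h)) h hP

end Pool.CX
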