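import Pool.Agent.Helper47.CX.Iface

/-!
# Project CX (MP_f22a19_gt): the affine labels

Boolean test for the labels of the facets of one copy, and the conditions `Labels` for the double.
The test is generic in the look-up functions: `lab u u'` is the letter of the edge `u u'`,
`rel i j l` a Boolean certificate for `A i * A j = A l`, `ed u u'` a Boolean certificate for
`A (lab u u') * A (lab u' u) = 1`, and `bd i` a Boolean certificate for the fact that the letter `i`
commutes with the reflection.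
-/

set_option autoImplicit false

namespace Pool.CX

open Pool.Agent.Helper66.AF

/-- The relations of the labels of one facet. -/
def cocOK (lab : ℕ → ℕ → ℕ) (ed : ℕ → ℕ → Bool) (rel : ℕ → ℕ → ℕ → Bool) (a b c d : ℕ) : Bool :=
  ed a b && ed a c && ed a d && ed b c && ed b d && ed c d &&
  rel (lab a b) (lab b c) (lab a c) && rel (lab a b) (lab b d) (lab a d) &&
  rel (lab a c) (lab c d) (lab a d)

/-- the letter of the edge between two different boundary vertices commutes with the reflection -/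
def bdOK (nB : ℕ) (lab : ℕ → ℕ → ℕ) (bd : ℕ → Bool) (a b : ℕ) : Bool :=
  bif Nat.blt a nB && Nat.blt b nB then bd (lab a b) else true

/-- The test for one facet of one copy, the boundary vertices are `0, ..., nB - 1`. -/
def facetOK (nB : ℕ) (lab : ℕ → ℕ → ℕ) (ed : ℕ → ℕ → Bool) (rel : ℕ → ℕ → ℕ → Bool)
    (bd : ℕ → Bool) (a b c d : ℕ) : Bool :=
  cocOK lab ed rel a b c d && bdOK nB lab bd a b && bdOK nB lab bd a c && bdOK nB lab bd a d &&
  bdOK nB lab bd b c && bdOK nB lab bd b d && bdOK nB lab bd c d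

section

variable {A : ℕ → Aff3} {lab : ℕ → ℕ → ℕ} {ed : ℕ → ℕ → Bool} {rel : ℕ → ℕ → ℕ → Bool}
  {bd : ℕ → Bool}

/-- all relations follow from the relations with a base vertex -/
theorem mul_of_base {G U : Type*} [Group G] {r : U → U → G} {a : U} {S : List U}
    (h : ∀ x ∈ S, ∀ y ∈ S, r a x * r x y = r a y) {x y z : U} (hx : x ∈ S) (hy : y ∈ S)
    (hz : z ∈ S) : r x y * r y z = r x z := by
  have h1 := h x hx y hy
  have h2 := h y hy z hz
  have h3 := h x hx z hz
  rw [← h1, mul_assoc] at h2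
  rw [← h3] at h2
  exact mul_left_cancel h2

/-- the group theory of one facet -/
theorem coc_group {G : Type*} [Group G] {r : ℕ → ℕ → G} {a b c d : ℕ} (h1 : ∀ u, r u u = 1)
    (hab : r a b * r b a = 1) (hac : r a c * r c a = 1) (had : r a d * r d a = 1)
    (hbc : r b c * r c b = 1) (hbd : r b d * r d b = 1) (hcd : r c d * r d c = 1)
    (abc : r a b * r b c = r a c) (abd : r a b * r b d = r a d) (acd : r a c * r c d = r a d)
    {x y z : ℕ} (hx : x ∈ [a, b, c, d]) (hy : y ∈ [a, b, c, d]) (hz : z ∈ [a, b, c, d]) :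
    r x y * r y z = r x z := by
  refine mul_of_base (r := r) (a := a) (S := [a, b, c, d]) ?_ hx hy hz
  intro x hx y hy
  have e1 : r a c * r c b = r a b := by rw [← abc, mul_assoc, hbc, mul_one]
  have e2 : r a d * r d b = r a b := by rw [← abd, mul_assoc, hbd, mul_one]
  have e3 : r a d * r d c = r a c := by rw [← acd, mul_assoc, hcd, mul_one]
  simp only [List.mem_cons, List.not_mem_nil, or_false] at hx hy
  rcases hx with rfl | rfl | rfl | rfl <;> rcases hy with rfl | rfl | rfl | rfl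
  · rw [h1, mul_one]
  · rw [h1, one_mul]
  · rw [h1, one_mul]
  · rw [h1, one_mul]
  · rw [h1, hab]
  · rw [h1, mul_one]
  · exact abc
  · exact abd
  · rw [h1, hac]
  · exact e1
  · rw [h1, mul_one]
  · exact acd
  · rw [h1, had]
  · exact e2
  · exact e3
  · rw [h1, mul_one]

theorem cocOK_sound (h0 : A 0 = 1) (hlab : ∀ u, lab u u = 0)
    (hed : ∀ u v, ed u v = true → A (lab u v) * A (lab v u) = 1)
    (hrel : ∀ i j l, rel i j l = true → A i * A j = A l) {a b c d : ℕ}
    (h : cocOK lab ed rel a b c d = true) {x y z : ℕ} (hx : x ∈ [a, b, c, d])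
    (hy : y ∈ [a, b, c, d]) (hz : z ∈ [a, b, c, d]) :
    A (lab x y) * A (lab y z) = A (lab x z) := by
  simp only [cocOK, Bool.and_eq_true] at h
  obtain ⟨⟨⟨⟨⟨⟨⟨⟨hab, hac⟩, had⟩, hbc⟩, hbd⟩, hcd⟩, habc⟩, habd⟩, hacd⟩ := h
  exact coc_group (r := fun x y => A (lab x y)) (fun u => by rw [hlab, h0]) (hed _ _ hab)
    (hed _ _ hac) (hed _ _ had) (hed _ _ hbc) (hed _ _ hbd) (hed _ _ hcd) (hrel _ _ _ habc)
    (hrel _ _ _ habd) (hrel _ _ _ hacd) hx hy hz

/-- the inverse of a map which commutes with the reflection commutes with the reflection -/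
theorem comm_inv {f g : Aff3} (h : f * g = 1) (hf : ∀ x, f (sigmaL x) = sigmaL (f x)) (x : E3) :
    g (sigmaL x) = sigmaL (g x) := by
  apply f.injective
  have e : ∀ y, f (g y) = y := fun y => by
    have := congrArg (fun k : Aff3 => k y) h
    exact this
  rw [e, hf, e]

theorem bdOK_sound {nB : ℕ} (hbd : ∀ i, bd i = true → ∀ x, A i (sigmaL x) = sigmaL (A i x))
    {a b : ℕ} (hinv : A (lab a b) * A (lab b a) = 1) (h : bdOK nB lab bd a b = true) (ha : a < nB)
    (hb : b < nB) :
    (∀ x : E3, A (lab a b) (sigmaL x) = sigmaL (A (lab a b) x)) ∧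
      ∀ x : E3, A (lab b a) (sigmaL x) = sigmaL (A (lab b a) x) := by
  have ha' : Nat.blt a nB = true := by rw [Nat.blt_eq]; exact ha
  have hb' : Nat.blt b nB = true := by rw [Nat.blt_eq]; exact hb
  unfold bdOK at h
  rw [ha', hb', Bool.and_self, cond_true] at h
  exact ⟨hbd _ h, comm_inv hinv (hbd _ h)⟩

theorem facetOK_sound {nB : ℕ} (h0 : A 0 = 1) (hlab : ∀ u, lab u u = 0)
    (hed : ∀ u v, ed u v = true → A (lab u v) * A (lab v u) = 1)
    (hrel : ∀ i j l, rel i j l = true → A i * A j = A l)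
    (hbd : ∀ i, bd i = true → ∀ x, A i (sigmaL x) = sigmaL (A i x)) {a b c d : ℕ}
    (h : facetOK nB lab ed rel bd a b c d = true) :
    (∀ x ∈ [a, b, c, d], ∀ y ∈ [a, b, c, d], ∀ z ∈ [a, b, c, d],
      A (lab x y) * A (lab y z) = A (lab x z)) ∧
    (∀ x ∈ [a, b, c, d], ∀ y ∈ [a, b, c, d], x < nB → y < nB → ∀ v,
      A (lab x y) (sigmaL v) = sigmaL (A (lab x y) v)) := by
  simp only [facetOK, Bool.and_eq_true] at h
  obtain ⟨⟨⟨⟨⟨⟨h1, hab⟩, hac⟩, had⟩, hbc⟩, hbd'⟩, hcd⟩ := h
  refine ⟨fun x hx y hy z hz => cocOK_sound h0 hlab hed hrel h1 hx hy hz, ?_⟩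
  simp only [cocOK, Bool.and_eq_true] at h1
  obtain ⟨⟨⟨⟨⟨⟨⟨⟨iab, iac⟩, iad⟩, ibc⟩, ibd⟩, icd⟩, -⟩, -⟩, -⟩ := h1
  have cself : ∀ (x : ℕ) (v : E3), A (lab x x) (sigmaL v) = sigmaL (A (lab x x) v) := by
    intro x v
    rw [hlab, h0]
    rfl
  intro x hx y hy hx' hy' v
  simp only [List.mem_cons, List.not_mem_nil, or_false] at hx hy
  rcases hx with rfl | rfl | rfl | rfl <;> rcases hy with rfl | rfl | rfl | rfl
  · exact cself _ v
  · exact (bdOK_sound hbd (hed _ _ iab) hab hx' hy').1 v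
  · exact (bdOK_sound hbd (hed _ _ iac) hac hx' hy').1 v
  · exact (bdOK_sound hbd (hed _ _ iad) had hx' hy').1 v
  · exact (bdOK_sound hbd (hed _ _ iab) hab hy' hx').2 v
  · exact cself _ v
  · exact (bdOK_sound hbd (hed _ _ ibc) hbc hx' hy').1 v
  · exact (bdOK_sound hbd (hed _ _ ibd) hbd' hx' hy').1 v
  · exact (bdOK_sound hbd (hed _ _ iac) hac hy' hx').2 v
  · exact (bdOK_sound hbd (hed _ _ ibc) hbc hy' hx').2 v
  · exact cself _ v
  · exact (bdOK_sound hbd (hed _ _ icd) hcd hx' hy').1 v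
  · exact (bdOK_sound hbd (hed _ _ iad) had hy' hx').2 v
  · exact (bdOK_sound hbd (hed _ _ ibd) hbd' hy' hx').2 v
  · exact (bdOK_sound hbd (hed _ _ icd) hcd hy' hx').2 v
  · exact cself _ v

/-- **Labels of the double from the test of the facets.** `T` are the facets of the double; every
facet folds to a facet with the property `facetOK`, and the vertices of the facets of the second
copy which are not on side `true` fold to boundary vertices (numbers less than `nB`). -/
theorem labels_of_facets {W : Type*} {T : List (Tet W)} {fold : W → ℕ} {side : W → Bool}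
    {P : ℕ → E3} {nB : ℕ} (h0 : A 0 = 1) (hlab : ∀ u, lab u u = 0)
    (hed : ∀ u v, ed u v = true → A (lab u v) * A (lab v u) = 1)
    (hrel : ∀ i j l, rel i j l = true → A i * A j = A l)
    (hbd : ∀ i, bd i = true → ∀ x, A i (sigmaL x) = sigmaL (A i x))
    (hT : ∀ t ∈ T, ∃ a b c d : ℕ, facetOK nB lab ed rel bd a b c d = true ∧
      ∀ w ∈ verts t, fold w ∈ [a, b, c, d])
    (hside : ∀ t ∈ T, (∃ c ∈ verts t, side c = true) → ∀ a ∈ verts t, side a = false →
      fold a < nB)
    (hP : ∀ u < nB, P u 2 = 0) :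
    Labels T fold side (fun u u' => A (lab u u')) P where
  one := fun u => by rw [hlab, h0]
  coc := by
    intro t ht x hx y hy z hz
    obtain ⟨a, b, c, d, h, hv⟩ := hT t ht
    exact (facetOK_sound h0 hlab hed hrel hbd h).1 _ (hv x hx) _ (hv y hy) _ (hv z hz)
  plane := fun t ht hc a ha hs => hP _ (hside t ht hc a ha hs)
  comm := by
    intro t ht hc x hx y hy hsx hsy v
    obtain ⟨a, b, c, d, h, hv⟩ := hT t ht
    exact (facetOK_sound h0 hlab hed hrel hbd h).2 _ (hv x hx) _ (hv y hy)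
      (hside t ht hc x hx hsx) (hside t ht hc y hy hsy) v

end

end Pool.CX
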